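import Mathlib
import Pool.Agent.Y975.SS.Main

set_option autoImplicit false

open Matrix Finset

namespace Pool.Agent.Results.MP_59a663_pr.ConstantSparsityFails

/-- An outcome of the randomness: for every row `i` and every block `j` the sign of the nonzero
entry and its position inside the block. -/
abbrev Outcome (n b ζ : ℕ) : Type := Fin n → Fin ζ → Bool × Fin b

/-- Probability of an event when all signs and all positions are independent and uniform, that is,
the uniform law on the finite set of outcomes. -/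
noncomputable def prob {n b ζ : ℕ} (A : Set (Outcome n b ζ)) : ℝ :=
  (Nat.card A : ℝ) / (Nat.card (Outcome n b ζ) : ℝ)

/-- The SparseStack matrix with `k = b * ζ` columns, indexed by the pairs (block, position in the
block). Row `i` has in block `j` exactly one nonzero entry, equal to plus or minus `1 / √ζ`. -/
noncomputable def sparseStack {n b ζ : ℕ} (ω : Outcome n b ζ) :
    Matrix (Fin n) (Fin ζ × Fin b) ℝ :=
  fun i c => if (ω i c.1).2 = c.2 then (if (ω i c.1).1 then (1 : ℝ) else -1) / Real.sqrt ζ else 0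

/-- Squared Euclidean norm of a real vector. -/
def sqn {ι : Type} [Fintype ι] (x : ι → ℝ) : ℝ := ∑ i, x i ^ 2

/-- The injectivity inequality `α ‖x‖² ≤ ‖Ωᵀ x‖²` for all `x ∈ V`. -/
def Injects {n b ζ : ℕ} (ω : Outcome n b ζ) (V : Submodule ℝ (Fin n → ℝ)) (α : ℝ) : Prop :=
  ∀ x ∈ V, α * sqn x ≤ sqn ((sparseStack ω)ᵀ *ᵥ x)

/-- The SparseStack is an oblivious subspace injection for dimension `r` with parameter `α` and
failure probability `0.01`: isotropy, and injectivity with probability at least `0.99` for every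
subspace of dimension `r`. -/
structure IsOSI (n b ζ r : ℕ) (α : ℝ) : Prop where
  isotropy : ∀ x : Fin n → ℝ,
    (∑ ω : Outcome n b ζ, sqn ((sparseStack ω)ᵀ *ᵥ x)) / (Nat.card (Outcome n b ζ) : ℝ) = sqn x
  injectivity : ∀ V : Submodule ℝ (Fin n → ℝ), Module.finrank ℝ V = r →
    99 / 100 ≤ prob {ω : Outcome n b ζ | Injects ω V α}

open Pool.Agent.Y975.SS

/-- Positions and signs separately. -/
def split (n b ζ : ℕ) :
    (Fin n × Fin ζ → Fin b) × (Fin n × Fin ζ → Bool) ≃ Outcome n b ζ where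
  toFun z := fun i j => (z.2 (i, j), z.1 (i, j))
  invFun ω := (fun x => (ω x.1 x.2).2, fun x => (ω x.1 x.2).1)
  left_inv _ := rfl
  right_inv _ := rfl

lemma mulVec_eq {n b ζ : ℕ} (z : (Fin n × Fin ζ → Fin b) × (Fin n × Fin ζ → Bool))
    (x : Fin n → ℝ) (c : Fin ζ × Fin b) :
    ((sparseStack (split n b ζ z))ᵀ *ᵥ x) c = img z.1 z.2 x c.1 c.2 / Real.sqrt ζ := by
  rw [Matrix.mulVec, dotProduct]
  unfold img
  rw [Finset.sum_div]
  refine sum_congr rfl fun i _ => ?_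
  show (if z.1 (i, c.1) = c.2 then (if z.2 (i, c.1) then (1 : ℝ) else -1) / Real.sqrt ζ else 0) * x i
    = _
  unfold sgn
  split_ifs <;> ring

lemma sqn_mulVec {n b ζ : ℕ} (z : (Fin n × Fin ζ → Fin b) × (Fin n × Fin ζ → Bool))
    (x : Fin n → ℝ) :
    sqn ((sparseStack (split n b ζ z))ᵀ *ᵥ x) = (1 / (ζ : ℝ)) * ∑ k, ∑ t, img z.1 z.2 x k t ^ 2 := by
  unfold sqn
  rw [Fintype.sum_prod_type, Finset.mul_sum]
  refine sum_congr rfl fun k _ => ?_
  rw [Finset.mul_sum]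
  refine sum_congr rfl fun t _ => ?_
  rw [mulVec_eq, div_pow, Real.sq_sqrt (Nat.cast_nonneg _)]
  ring

/-- The subspace of the first `r` coordinates. -/
noncomputable def emb (n r : ℕ) : (Fin r → ℝ) →ₗ[ℝ] (Fin n → ℝ) where
  toFun y := fun i => if h : (i : ℕ) < r then y ⟨i, h⟩ else 0
  map_add' y y' := by funext i; by_cases h : (i : ℕ) < r <;> simp [h]
  map_smul' a y := by funext i; by_cases h : (i : ℕ) < r <;> simp [h]

lemma emb_injective {n r : ℕ} (hr : r ≤ n) : Function.Injective (emb n r) := by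
  intro y y' h
  funext j
  have := congrFun h ⟨j, lt_of_lt_of_le j.2 hr⟩
  simpa [emb] using this

lemma finrank_V {n r : ℕ} (hr : r ≤ n) : Module.finrank ℝ (LinearMap.range (emb n r)) = r := by
  rw [LinearMap.finrank_range_of_inj (emb_injective hr)]
  simp

lemma mem_V {n r : ℕ} (x : Fin n → ℝ) (hr : r ≤ n) (hx : ∀ i : Fin n, r ≤ (i : ℕ) → x i = 0) :
    x ∈ LinearMap.range (emb n r) := by
  refine ⟨fun j => x (Fin.castLE hr j), ?_⟩
  funext i
  by_cases h : (i : ℕ) < r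
  · simp [emb, h]
  · simp [emb, h, hx i (not_lt.1 h)]

lemma prob_eq {n b ζ : ℕ} (A : Set (Outcome n b ζ)) :
    prob A = av (fun z : (Fin n × Fin ζ → Fin b) × (Fin n × Fin ζ → Bool) =>
      open Classical in if split n b ζ z ∈ A then (1 : ℝ) else 0) := by
  classical
  rw [av_equiv (split n b ζ) (fun ω => if ω ∈ A then (1 : ℝ) else 0)]
  unfold prob av
  rw [Nat.card_eq_fintype_card, Nat.card_eq_fintype_card, Finset.sum_boole, Fintype.card_subtype]

/-- The strong form: for constant sparsity and proportional dimension the injectivity fails with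
probability tending to one, on a coordinate subspace. -/
theorem strong (C₁ C₂ α η : ℝ) (hα : 0 < α) (hη : 0 < η) :
    ∃ r₀ : ℕ, ∀ r n : ℕ, r₀ ≤ r → r ≤ n → ∀ ζ b : ℕ, 1 ≤ ζ → 1 ≤ b → (ζ : ℝ) ≤ C₁ →
      ((b * ζ : ℕ) : ℝ) ≤ C₂ * r → ∃ V : Submodule ℝ (Fin n → ℝ), Module.finrank ℝ V = r ∧
        prob {ω : Outcome n b ζ | Injects ω V α} ≤ η := by
  classical
  obtain ⟨r₀, h⟩ := av_inj_small C₁ C₂ α η hα hη
  refine ⟨r₀, fun r n h1 h2 ζ b h3 h4 h5 h6 =>
    ⟨LinearMap.range (emb n r), finrank_V h2, ?_⟩⟩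
  refine le_trans ?_ (h r n h1 h2 ζ b h3 h4 h5 h6)
  rw [prob_eq]
  refine av_mono fun z => ?_
  by_cases hz : split n b ζ z ∈ {ω : Outcome n b ζ | Injects ω (LinearMap.range (emb n r)) α}
  · have h7 : Inj r α z.1 z.2 := by
      intro x hx
      have := hz x (mem_V x h2 hx)
      rwa [sqn_mulVec] at this
    rw [if_pos hz, if_pos h7]
  · rw [if_neg hz]
    split_ifs <;> norm_num

/-- Constant sparsity `ζ ≤ C₁` and embedding dimension `b ζ ≤ C₂ r` never give an oblivious subspace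
injection: for all large `r` and all `n ≥ r` there is an `r`-dimensional subspace of `ℝⁿ` on which
the injectivity with parameter `α` has probability at most `η`. In particular the answers to Q1 and
to Q2 are negative. -/
theorem result :
    (∀ C₁ C₂ α η : ℝ, 0 < α → 0 < η →
      ∃ r₀ : ℕ, ∀ r n : ℕ, r₀ ≤ r → r ≤ n → ∀ ζ b : ℕ, 1 ≤ ζ → 1 ≤ b → (ζ : ℝ) ≤ C₁ →
        ((b * ζ : ℕ) : ℝ) ≤ C₂ * r → ∃ V : Submodule ℝ (Fin n → ℝ), Module.finrank ℝ V = r ∧
          prob {ω : Outcome n b ζ | Injects ω V α} ≤ η) ∧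
    (¬ ∃ c C₁ C₂ α : ℝ, 0 < c ∧ 0 < C₁ ∧ 0 < C₂ ∧ 0 < α ∧
      ∀ n r : ℕ, 1 ≤ r → r ≤ n → (r : ℝ) ≤ c * n / Real.log n →
        ∃ ζ b : ℕ, 1 ≤ ζ ∧ 1 ≤ b ∧ (ζ : ℝ) ≤ C₁ ∧ ((b * ζ : ℕ) : ℝ) ≤ C₂ * r ∧ IsOSI n b ζ r α) ∧
    (¬ ∃ c α : ℝ, 0 < c ∧ 0 < α ∧ ∃ r₀ : ℕ, ∀ n b : ℕ, r₀ ≤ 2 * b → 2 * b ≤ n →
      ((2 * b : ℕ) : ℝ) ≤ c * n / Real.log n → IsOSI n b 4 (2 * b) α) := by
  -- large `n` for given `r` and `c`
  have big : ∀ (c : ℝ) (r : ℕ), 0 < c → ∃ n : ℕ, r ≤ n ∧ (r : ℝ) ≤ c * n / Real.log n := by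
    intro c r hc
    obtain ⟨K, hK⟩ := exists_nat_ge (2 * r / c + r + 2)
    have hr0 : (0 : ℝ) ≤ r := Nat.cast_nonneg r
    have h0 : 0 ≤ 2 * (r : ℝ) / c := by positivity
    have hK2 : (2 : ℝ) ≤ K := by linarith
    have hKr : (r : ℝ) ≤ K := by linarith
    refine ⟨K ^ 2, ?_, ?_⟩
    · have h1 : r ≤ K := by exact_mod_cast hKr
      have h2 : K ≤ K ^ 2 := by nlinarith [(by exact_mod_cast hK2 : 2 ≤ K)]
      omega
    · push_cast
      have hlog : Real.log ((K : ℝ) ^ 2) ≤ 2 * K := by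
        rw [Real.log_pow]
        have := Real.log_le_sub_one_of_pos (show (0 : ℝ) < K by linarith)
        push_cast
        linarith
      have hlog0 : 0 < Real.log ((K : ℝ) ^ 2) := Real.log_pos (by nlinarith)
      rw [le_div_iff₀ hlog0]
      have h3 : 2 * (r : ℝ) / c ≤ K := by linarith
      rw [div_le_iff₀ hc] at h3
      calc (r : ℝ) * Real.log ((K : ℝ) ^ 2) ≤ r * (2 * K) := mul_le_mul_of_nonneg_left hlog hr0
        _ = (2 * r) * K := by ring
        _ ≤ (K * c) * K := mul_le_mul_of_nonneg_right h3 (by linarith)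
        _ = c * (K : ℝ) ^ 2 := by ring
  refine ⟨fun C₁ C₂ α η hα hη => strong C₁ C₂ α η hα hη, ?_, ?_⟩
  · rintro ⟨c, C₁, C₂, α, hc, -, -, hα, h⟩
    obtain ⟨r₀, h0⟩ := strong C₁ C₂ α (1 / 2) hα (by norm_num)
    obtain ⟨n, hn, hcn⟩ := big c (max r₀ 1) hc
    obtain ⟨ζ, b, h1, h2, h3, h4, h5⟩ := h n (max r₀ 1) (le_max_right _ _) hn hcn
    obtain ⟨V, hV, hp⟩ := h0 (max r₀ 1) n (le_max_left _ _) hn ζ b h1 h2 h3 h4
    have h6 := h5.injectivity V hV
    linarith
  · rintro ⟨c, α, hc, hα, r₁, h⟩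
    obtain ⟨r₀, h0⟩ := strong 4 2 α (1 / 2) hα (by norm_num)
    set b := max (max r₀ r₁) 1 with hb
    have hb0 : r₀ ≤ b := (le_max_left _ _).trans (le_max_left _ _)
    have hb1 : r₁ ≤ b := (le_max_right _ _).trans (le_max_left _ _)
    have hb2 : 1 ≤ b := le_max_right _ _
    obtain ⟨n, hn, hcn⟩ := big c (2 * b) hc
    have h5 := h n b (by omega) hn hcn
    obtain ⟨V, hV, hp⟩ := h0 (2 * b) n (by omega) hn 4 b (by norm_num) hb2 (by norm_num)
      (by push_cast; linarith)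
    have h6 := h5.injectivity V hV
    linarith

end Pool.Agent.Results.MP_59a663_pr.ConstantSparsityFails
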